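import Pool.Agent.W836.SH.Stm

/-! # SH-AE (helper683 for helper836) -/

open scoped Classical

namespace Pool.Agent.W683.SH

open Pool.Agent.W836.SH

noncomputable section

theorem det_a : |(!![1, 1, 1, 1, 1; 0, 1, 0, 0, 0; 0, 0, 1, 0, 0; 1, 1, 1, 1, 0;
    1, 0, 0, 0, 0] : Matrix (Fin 5) (Fin 5) ℝ).det| = 1 := by
  have : (!![1, 1, 1, 1, 1; 0, 1, 0, 0, 0; 0, 0, 1, 0, 0; 1, 1, 1, 1, 0;
    1, 0, 0, 0, 0] : Matrix (Fin 5) (Fin 5) ℝ).det = -1 := by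
    simp [Matrix.det_succ_row_zero, Fin.sum_univ_succ, Fin.succAbove]
    norm_num
  rw [this]
  norm_num

theorem det_b : |(!![1, 1, 1, 1, 1; 0, 1, 0, 0, 0; 0, 0, 1, 0, 0; 1, 1, 1, 1, 0;
    0, 1, 1, 1, 1] : Matrix (Fin 5) (Fin 5) ℝ).det| = 1 := by
  have : (!![1, 1, 1, 1, 1; 0, 1, 0, 0, 0; 0, 0, 1, 0, 0; 1, 1, 1, 1, 0;
    0, 1, 1, 1, 1] : Matrix (Fin 5) (Fin 5) ℝ).det = 1 := by
    simp [Matrix.det_succ_row_zero, Fin.sum_univ_succ, Fin.succAbove]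
    norm_num
  rw [this]
  norm_num

theorem det_c : |(!![1, 1, 1, 1, 1; 1, 1, 1, 0, 0; 0, 0, 0, 1, 0; 1, 1, 0, 1, 1;
    1, 0, 0, 0, 0] : Matrix (Fin 5) (Fin 5) ℝ).det| = 1 := by
  have : (!![1, 1, 1, 1, 1; 1, 1, 1, 0, 0; 0, 0, 0, 1, 0; 1, 1, 0, 1, 1;
    1, 0, 0, 0, 0] : Matrix (Fin 5) (Fin 5) ℝ).det = -1 := by
    simp [Matrix.det_succ_row_zero, Fin.sum_univ_succ, Fin.succAbove]
    norm_num
  rw [this]
  norm_num

theorem det_d : |(!![1, 1, 1, 1, 1; 1, 1, 1, 0, 0; 0, 0, 0, 1, 0; 1, 1, 0, 1, 1;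
    0, 1, 1, 1, 1] : Matrix (Fin 5) (Fin 5) ℝ).det| = 1 := by
  have : (!![1, 1, 1, 1, 1; 1, 1, 1, 0, 0; 0, 0, 0, 1, 0; 1, 1, 0, 1, 1;
    0, 1, 1, 1, 1] : Matrix (Fin 5) (Fin 5) ℝ).det = 1 := by
    simp [Matrix.det_succ_row_zero, Fin.sum_univ_succ, Fin.succAbove]
    norm_num
  rw [this]
  norm_num

variable {ι : Type} {F : Finset (Finset ι)} {o : ι → ℝ} {τ sig : ℝ} {i a b j : ι}
  {Yc Ya Yb S : Finset ι}

theorem case1 (hFW : FW τ o F) (hsig : 0 < sig) (mS : S ∈ F)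
    (mc : Yc ∈ F) (mci : insert i Yc ∈ F) (mai : insert i Ya ∈ F) (mbi : insert i Yb ∈ F)
    (iS : i ∈ S) (ic : i ∉ Yc) (aS : a ∉ S) (bS : b ∉ S) (aYa : a ∈ Ya) (aYb : a ∉ Yb)
    (aYc : a ∉ Yc) (bYa : b ∉ Ya) (bYb : b ∈ Yb) (bYc : b ∉ Yc) (hai : a ≠ i) (hbi : b ≠ i)
    (hji : j ≠ i) (oi : o i = τ) (oa : o a = τ) (ob : o b = τ)
    (hj : (j ∈ S ∧ j ∉ Yc ∧ j ∉ Ya ∧ j ∉ Yb ∧ o j = sig) ∨
      (j ∉ S ∧ j ∈ Yc ∧ j ∈ Ya ∧ j ∈ Yb ∧ o j = 1 - sig)) : False := by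
  have h := hFW 4 ![a, b, i, j] ![S, insert i Ya, insert i Yb, insert i Yc, Yc]
    ![sig, τ, τ, -τ - sig, 1 - τ] (by
      intro x
      fin_cases x
      exacts [mS, mai, mbi, mci, mc]) (by
      intro x
      rw [Fin.sum_univ_five]
      fin_cases x
      · simp [aS, aYa, aYb, aYc, hai, oa]
      · simp [bS, bYa, bYb, bYc, hbi, ob]
      · simp [iS, ic, oi]
        ring
      · rcases hj with ⟨h1, h2, h3, h4, h5⟩ | ⟨h1, h2, h3, h4, h5⟩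
        · simp [h1, h2, h3, h4, h5, hji]
        · simp [h1, h2, h3, h4, h5]
          ring) (by
      rw [Fin.sum_univ_five]
      simp
      ring) (by
      rcases hj with ⟨h1, h2, h3, h4, h5⟩ | ⟨h1, h2, h3, h4, h5⟩
      · have e : IM ![a, b, i, j] ![S, insert i Ya, insert i Yb, insert i Yc, Yc] =
            !![1, 1, 1, 1, 1; 0, 1, 0, 0, 0; 0, 0, 1, 0, 0; 1, 1, 1, 1, 0; 1, 0, 0, 0, 0] := by
          ext x y
          refine Fin.cases ?_ (fun x => ?_) x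
          · fin_cases y <;> simp [IM]
          simp only [IM, Matrix.of_apply, Fin.cons_succ]
          fin_cases x <;> fin_cases y <;>
            simp [aS, aYa, aYb, aYc, hai, bS, bYa, bYb, bYc, hbi, iS, ic, h1, h2, h3, h4, hji]
        rw [e]
        exact det_a
      · have e : IM ![a, b, i, j] ![S, insert i Ya, insert i Yb, insert i Yc, Yc] =
            !![1, 1, 1, 1, 1; 0, 1, 0, 0, 0; 0, 0, 1, 0, 0; 1, 1, 1, 1, 0; 0, 1, 1, 1, 1] := by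
          ext x y
          refine Fin.cases ?_ (fun x => ?_) x
          · fin_cases y <;> simp [IM]
          simp only [IM, Matrix.of_apply, Fin.cons_succ]
          fin_cases x <;> fin_cases y <;>
            simp [aS, aYa, aYb, aYc, hai, bS, bYa, bYb, bYc, hbi, iS, ic, h1, h2, h3, h4, hji]
        rw [e]
        exact det_b)
  rw [Fin.sum_univ_five] at h
  have e0 : -((![sig, τ, τ, -τ - sig, 1 - τ] : Fin 5 → ℝ) 3) = τ + sig := by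
    simp
    ring
  rw [e0] at h
  have h1 := le_max_left (τ + sig) 0
  have h2 := le_max_right (-((![sig, τ, τ, -τ - sig, 1 - τ] : Fin 5 → ℝ) 0)) 0
  have h3 := le_max_right (-((![sig, τ, τ, -τ - sig, 1 - τ] : Fin 5 → ℝ) 1)) 0
  have h4 := le_max_right (-((![sig, τ, τ, -τ - sig, 1 - τ] : Fin 5 → ℝ) 2)) 0
  have h5 := le_max_right (-((![sig, τ, τ, -τ - sig, 1 - τ] : Fin 5 → ℝ) 4)) 0
  linarith

theorem case2 (hFW : FW τ o F) (hτ : τ < 1 / 2) (hsig : τ ≤ sig) (mS : S ∈ F)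
    (ma : Ya ∈ F) (mci : insert i Yc ∈ F) (mai : insert i Ya ∈ F) (mbi : insert i Yb ∈ F)
    (iS : i ∈ S) (ia : i ∉ Ya) (aS : a ∈ S) (bS : b ∉ S) (aYa : a ∈ Ya) (aYb : a ∉ Yb)
    (aYc : a ∉ Yc) (bYa : b ∉ Ya) (bYb : b ∈ Yb) (bYc : b ∉ Yc) (hai : a ≠ i) (hbi : b ≠ i)
    (hji : j ≠ i) (oi : o i = τ) (oa : o a = τ) (ob : o b = τ)
    (hj : (j ∈ S ∧ j ∉ Yc ∧ j ∉ Ya ∧ j ∉ Yb ∧ o j = sig) ∨
      (j ∉ S ∧ j ∈ Yc ∧ j ∈ Ya ∧ j ∈ Yb ∧ o j = 1 - sig)) : False := by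
  have h := hFW 4 ![a, b, i, j] ![S, insert i Ya, Ya, insert i Yb, insert i Yc]
    ![sig, 2 * τ - 1 - sig, 1 - τ, τ, 1 - 2 * τ] (by
      intro x
      fin_cases x
      exacts [mS, mai, ma, mbi, mci]) (by
      intro x
      rw [Fin.sum_univ_five]
      fin_cases x
      · simp [aS, aYa, aYb, aYc, hai, oa]
        ring
      · simp [bS, bYa, bYb, bYc, hbi, ob]
      · simp [iS, ia, oi]
        ring
      · rcases hj with ⟨h1, h2, h3, h4, h5⟩ | ⟨h1, h2, h3, h4, h5⟩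
        · simp [h1, h2, h3, h4, h5, hji]
        · simp [h1, h2, h3, h4, h5]
          ring) (by
      rw [Fin.sum_univ_five]
      simp) (by
      rcases hj with ⟨h1, h2, h3, h4, h5⟩ | ⟨h1, h2, h3, h4, h5⟩
      · have e : IM ![a, b, i, j] ![S, insert i Ya, Ya, insert i Yb, insert i Yc] =
            !![1, 1, 1, 1, 1; 1, 1, 1, 0, 0; 0, 0, 0, 1, 0; 1, 1, 0, 1, 1; 1, 0, 0, 0, 0] := by
          ext x y
          refine Fin.cases ?_ (fun x => ?_) x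
          · fin_cases y <;> simp [IM]
          simp only [IM, Matrix.of_apply, Fin.cons_succ]
          fin_cases x <;> fin_cases y <;>
            simp [aS, aYa, aYb, aYc, hai, bS, bYa, bYb, bYc, hbi, iS, ia, h1, h2, h3, h4, hji]
        rw [e]
        exact det_c
      · have e : IM ![a, b, i, j] ![S, insert i Ya, Ya, insert i Yb, insert i Yc] =
            !![1, 1, 1, 1, 1; 1, 1, 1, 0, 0; 0, 0, 0, 1, 0; 1, 1, 0, 1, 1; 0, 1, 1, 1, 1] := by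
          ext x y
          refine Fin.cases ?_ (fun x => ?_) x
          · fin_cases y <;> simp [IM]
          simp only [IM, Matrix.of_apply, Fin.cons_succ]
          fin_cases x <;> fin_cases y <;>
            simp [aS, aYa, aYb, aYc, hai, bS, bYa, bYb, bYc, hbi, iS, ia, h1, h2, h3, h4, hji]
        rw [e]
        exact det_d)
  rw [Fin.sum_univ_five] at h
  have e0 : -((![sig, 2 * τ - 1 - sig, 1 - τ, τ, 1 - 2 * τ] : Fin 5 → ℝ) 1) =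
      1 + sig - 2 * τ := by
    simp
    ring
  rw [e0] at h
  have h1 := le_max_left (1 + sig - 2 * τ) 0
  have h2 := le_max_right (-((![sig, 2 * τ - 1 - sig, 1 - τ, τ, 1 - 2 * τ] : Fin 5 → ℝ) 0)) 0
  have h3 := le_max_right (-((![sig, 2 * τ - 1 - sig, 1 - τ, τ, 1 - 2 * τ] : Fin 5 → ℝ) 2)) 0
  have h4 := le_max_right (-((![sig, 2 * τ - 1 - sig, 1 - τ, τ, 1 - 2 * τ] : Fin 5 → ℝ) 3)) 0
  have h5 := le_max_right (-((![sig, 2 * τ - 1 - sig, 1 - τ, τ, 1 - 2 * τ] : Fin 5 → ℝ) 4)) 0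
  linarith

theorem main : S_AE := by
  intro ι F o τ i a b j Yc Ya Yb h13 hτ hFG hc ha hb aYa aYc aYb bYb bYc bYa oi oa ob hab hji
    hja hjb hoj hoj' S mS iS
  obtain ⟨mc, ic, mci⟩ := Finset.mem_filter.1 hc
  obtain ⟨ma, ia, mai⟩ := Finset.mem_filter.1 ha
  obtain ⟨mb, ib, mbi⟩ := Finset.mem_filter.1 hb
  obtain ⟨hFW, -, hSQ⟩ := hFG
  have hai : a ≠ i := fun h => ia (h ▸ aYa)
  have hbi : b ≠ i := fun h => ib (h ▸ bYb)
  by_contra hcon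
  have key : ∃ sig : ℝ, τ ≤ sig ∧
      ((j ∈ S ∧ j ∉ Yc ∧ j ∉ Ya ∧ j ∉ Yb ∧ o j = sig) ∨
      (j ∉ S ∧ j ∈ Yc ∧ j ∈ Ya ∧ j ∈ Yb ∧ o j = 1 - sig)) := by
    by_cases hj : j ∈ Yc
    · have hS : j ∉ S := fun h => hcon ⟨fun _ => hj, fun _ => h⟩
      exact ⟨1 - o j, by linarith, Or.inr ⟨hS, hj, hja.2 hj, hjb.2 hj, by ring⟩⟩
    · have hS : j ∈ S := by
        by_contra h
        exact hcon ⟨fun h' => absurd h' h, fun h' => absurd h' hj⟩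
      exact ⟨o j, hoj, Or.inl ⟨hS, hj, fun h => hj (hja.1 h), fun h => hj (hjb.1 h), rfl⟩⟩
  obtain ⟨sig, hs, hj⟩ := key
  by_cases aS : a ∈ S
  · have bS : b ∉ S := fun h => hab S mS ⟨aS, h⟩
    exact case2 hFW hτ hs mS ma mci mai mbi iS ia aS bS aYa aYb aYc bYa bYb bYc hai hbi hji oi oa
      ob hj
  · by_cases bS : b ∈ S
    · refine case2 (a := b) (b := a) (Ya := Yb) (Yb := Ya) hFW hτ hs mS mb mci mbi mai iS ib bS aS
        bYb bYa bYc aYb aYa aYc hbi hai hji oi ob oa ?_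
      rcases hj with ⟨h1, h2, h3, h4, h5⟩ | ⟨h1, h2, h3, h4, h5⟩
      · exact Or.inl ⟨h1, h2, h4, h3, h5⟩
      · exact Or.inr ⟨h1, h2, h4, h3, h5⟩
    · exact case1 hFW (by linarith) mS mc mci mai mbi iS ic aS bS aYa aYb aYc bYa
        bYb bYc hai hbi hji oi oa ob hj

end

end Pool.Agent.W683.SH
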